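import Pool.Agent.Helper72.LGI.Defs
import Pool.Agent.Helper65.LGS.Ser

/-!
# Sections with a subnormal series
-/

set_option autoImplicit false

namespace Pool.Agent.Helper72.LGI

open Subgroup Finset Pool.Agent.Helper72.LG Pool.Agent.Helper72.LGS

theorem ser_of_chain {G : Type*} [Group G] {M : ℕ} {L C : Subgroup G} [L.Normal] (hLC : L ≤ C)
    (h : Chain M L C) : Ser M (C ⧸ L.subgroupOf C) := by
  obtain ⟨r, f, h0, hr, h1⟩ := h
  have hm : ∀ {i j : ℕ}, i ≤ j → j ≤ r → f i ≤ f j := fun hij hj =>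
    mono_of_le (fun i hi => (h1 i hi).1) hij hj
  refine ⟨r, fun i => ((f i).subgroupOf C).map (QuotientGroup.mk' (L.subgroupOf C)), ?_, ?_, ?_⟩
  · show ((f 0).subgroupOf C).map _ = ⊥
    rw [h0]
    exact QuotientGroup.map_mk'_self _
  · show ((f r).subgroupOf C).map _ = ⊤
    rw [hr, Subgroup.subgroupOf_self, ← MonoidHom.range_eq_map, MonoidHom.range_eq_top]
    exact QuotientGroup.mk'_surjective _
  · intro i hi
    obtain ⟨a, b, c⟩ := h1 i hi
    have hi1 : f (i + 1) ≤ C := hr ▸ hm (i := i + 1) (j := r) (by omega) le_rfl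
    have hL0 : L ≤ f i := h0 ▸ hm (i := 0) (j := i) (by omega) (by omega)
    have a' : (f i).subgroupOf C ≤ (f (i + 1)).subgroupOf C := fun x hx => a hx
    have b' : (((f i).subgroupOf C).subgroupOf ((f (i + 1)).subgroupOf C)).Normal := by
      rw [normal_subgroupOf_iff a] at b
      rw [normal_subgroupOf_iff a']
      intro x y hx hy
      exact b x.1 y.1 hx hy
    refine ⟨Subgroup.map_mono a', normal_map _ a' b', ?_⟩
    have hidx : (((f i).subgroupOf C).map (QuotientGroup.mk' (L.subgroupOf C))).relIndex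
        (((f (i + 1)).subgroupOf C).map (QuotientGroup.mk' (L.subgroupOf C))) =
        (f i).relIndex (f (i + 1)) := by
      have hk1 : (QuotientGroup.mk' (L.subgroupOf C)).ker ≤ (f i).subgroupOf C := by
        rw [QuotientGroup.ker_mk']
        exact fun x hx => hL0 hx
      rw [Subgroup.relIndex_map_map, sup_eq_left.2 hk1, sup_eq_left.2 (hk1.trans a'),
        Subgroup.relIndex_subgroupOf hi1]
    show (_ : ℕ).Prime ∨ _ ≤ M
    rw [hidx]
    exact c

theorem chain_of_ser {G : Type*} [Group G] {M : ℕ} {L C : Subgroup G} [L.Normal] (hLC : L ≤ C)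
    (h : Ser M (C ⧸ L.subgroupOf C)) : Chain M L C := by
  obtain ⟨r, f, h0, hr, h1⟩ := h
  refine ⟨r, fun i => ((f i).comap (QuotientGroup.mk' (L.subgroupOf C))).map C.subtype, ?_, ?_, ?_⟩
  · show ((f 0).comap _).map _ = L
    rw [h0, MonoidHom.comap_bot, QuotientGroup.ker_mk', Subgroup.subgroupOf_map_subtype]
    exact inf_eq_left.2 hLC
  · show ((f r).comap _).map _ = C
    rw [hr, Subgroup.comap_top, ← MonoidHom.range_eq_map, Subgroup.range_subtype]
  · intro i hi
    obtain ⟨a, b, c⟩ := h1 i hi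
    have a' : (f i).comap (QuotientGroup.mk' (L.subgroupOf C)) ≤
        (f (i + 1)).comap (QuotientGroup.mk' (L.subgroupOf C)) := Subgroup.comap_mono a
    have b' : (((f i).comap (QuotientGroup.mk' (L.subgroupOf C))).subgroupOf
        ((f (i + 1)).comap (QuotientGroup.mk' (L.subgroupOf C)))).Normal := by
      rw [normal_subgroupOf_iff a] at b
      rw [normal_subgroupOf_iff a']
      intro x y hx hy
      have := b _ _ hx hy
      show QuotientGroup.mk' (L.subgroupOf C) (y * x * y⁻¹) ∈ f i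
      rw [map_mul, map_mul, map_inv]
      exact this
    refine ⟨Subgroup.map_mono a', normal_map _ a' b', ?_⟩
    have hidx : (((f i).comap (QuotientGroup.mk' (L.subgroupOf C))).map C.subtype).relIndex
        (((f (i + 1)).comap (QuotientGroup.mk' (L.subgroupOf C))).map C.subtype) =
        (f i).relIndex (f (i + 1)) := by
      rw [Subgroup.relIndex_map_map_of_injective _ _ C.subtype_injective, Subgroup.relIndex_comap,
        Subgroup.map_comap_eq_self_of_surjective (QuotientGroup.mk'_surjective _)]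
    show (_ : ℕ).Prime ∨ _ ≤ M
    rw [hidx]
    exact c

theorem chain_trans {G : Type*} [Group G] {M : ℕ} {L X C : Subgroup G}
    (h : Chain M L X) (h' : Chain M X C) : Chain M L C := by
  obtain ⟨r, f, h0, hr, h1⟩ := h
  obtain ⟨s, g, g0, gs, g1⟩ := h'
  have e1 : ∀ j, j ≤ r → (if j ≤ r then f j else g (j - r) : Subgroup G) = f j :=
    fun j hj => if_pos hj
  have e2 : ∀ j, r ≤ j → (if j ≤ r then f j else g (j - r) : Subgroup G) = g (j - r) := by
    intro j hj
    by_cases h : j ≤ r
    · have : j = r := by omega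
      subst this
      rw [if_pos le_rfl, hr, Nat.sub_self, g0]
    · exact if_neg h
  refine ⟨r + s, fun j => if j ≤ r then f j else g (j - r), ?_, ?_, ?_⟩
  · show (if 0 ≤ r then f 0 else g (0 - r) : Subgroup G) = L
    rw [e1 0 (by omega), h0]
  · show (if r + s ≤ r then f (r + s) else g (r + s - r) : Subgroup G) = C
    rw [e2 _ (by omega), Nat.add_sub_cancel_left, gs]
  · intro i hi
    show (if i ≤ r then f i else g (i - r) : Subgroup G) ≤
        (if i + 1 ≤ r then f (i + 1) else g (i + 1 - r) : Subgroup G) ∧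
      ((if i ≤ r then f i else g (i - r) : Subgroup G).subgroupOf
        (if i + 1 ≤ r then f (i + 1) else g (i + 1 - r) : Subgroup G)).Normal ∧
      (((if i ≤ r then f i else g (i - r) : Subgroup G).relIndex
        (if i + 1 ≤ r then f (i + 1) else g (i + 1 - r) : Subgroup G)).Prime ∨
      ((if i ≤ r then f i else g (i - r) : Subgroup G).relIndex
        (if i + 1 ≤ r then f (i + 1) else g (i + 1 - r) : Subgroup G)) ≤ M)
    by_cases hir : i < r
    · rw [e1 i (by omega), e1 (i + 1) (by omega)]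
      exact h1 i hir
    · rw [e2 i (by omega), e2 (i + 1) (by omega), show i + 1 - r = (i - r) + 1 by omega]
      exact g1 (i - r) (by omega)

theorem chain_small {G : Type*} [Group G] {M : ℕ} {L C : Subgroup G} [L.Normal] (hLC : L ≤ C)
    (h : L.relIndex C ≤ M) : Chain M L C := by
  refine ⟨1, fun i => if i = 0 then L else C, rfl, rfl, fun i hi => ?_⟩
  have hi0 : i = 0 := by omega
  subst hi0
  refine ⟨hLC, ?_, Or.inr h⟩
  show (L.subgroupOf C).Normal
  infer_instance

/-- an abelian section -/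
theorem chain_abelian {G : Type*} [Group G] [Finite G] {M : ℕ} (hM : 1 ≤ M) {L C : Subgroup G}
    [L.Normal] (hLC : L ≤ C) (h : ∀ x ∈ C, ∀ y ∈ C, x * y * x⁻¹ * y⁻¹ ∈ L) : Chain M L C := by
  have hcomm : ∀ a b : C ⧸ L.subgroupOf C, a * b = b * a := by
    intro a b
    obtain ⟨x, rfl⟩ := QuotientGroup.mk'_surjective _ a
    obtain ⟨y, rfl⟩ := QuotientGroup.mk'_surjective _ b
    rw [← map_mul, ← map_mul]
    apply (QuotientGroup.eq).2
    show ((x * y)⁻¹ * (y * x) : C).1 ∈ L
    have h1 := h _ (C.inv_mem y.2) _ (C.inv_mem x.2)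
    have e : (y.1)⁻¹ * (x.1)⁻¹ * (y.1)⁻¹⁻¹ * (x.1)⁻¹⁻¹ = ((x * y)⁻¹ * (y * x) : C).1 := by
      show _ = (x.1 * y.1)⁻¹ * (y.1 * x.1)
      group
    rw [← e]
    exact h1
  have hs : Group.IsSolvable (C ⧸ L.subgroupOf C) := Group.isSolvable_of_comm hcomm
  exact chain_of_ser hLC (ser_of_solvable hM)

end Pool.Agent.Helper72.LGI
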